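import Pool.Agent.Few65U.Struct2
import Mathlib

set_option autoImplicit false

namespace Pool.Agent.Few65U

open Finset Pool.Agent.Few65

variable {m : ℕ}

/-- rational linear form with real coefficients -/
noncomputable def lf (c : Fin m → ℝ) : (Fin m → ℚ) →ₗ[ℚ] ℝ where
  toFun x := ∑ i, (x i : ℝ) * c i
  map_add' := by
    intro a b
    rw [← Finset.sum_add_distrib]
    apply Finset.sum_congr rfl
    intro i _
    rw [Pi.add_apply]; push_cast; ring
  map_smul' := by
    intro r a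
    simp only [Pi.smul_apply, smul_eq_mul, RingHom.id_apply, Rat.smul_def, Finset.mul_sum]
    apply Finset.sum_congr rfl
    intro i _
    push_cast; ring

theorem lf_apply (c : Fin m → ℝ) (x : Fin m → ℚ) : lf c x = ∑ i, (x i : ℝ) * c i := rfl

theorem ker_lf (c : Fin m → ℝ) : LinearMap.ker (lf c) = kerOf c := by
  ext x
  rw [LinearMap.mem_ker, lf_apply, mem_kerOf]

/-- the coordinates of the rational combination -/
noncomputable def XX (v : Fin m → Pl) (j : Fin 2) (x : Fin m → ℚ) : ℝ := ∑ i, (x i : ℝ) * v i j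

theorem lf_dt (v : Fin m → Pl) (e : Pl) (x : Fin m → ℚ) :
    lf (fun i => dt e (v i)) x = e 0 * XX v 0 x + e 1 * XX v 1 x := by
  rw [lf_apply]
  unfold XX dt
  rw [Finset.mul_sum, Finset.mul_sum, ← Finset.sum_add_distrib]
  apply Finset.sum_congr rfl
  intro i _
  ring

theorem lf_cr (v : Fin m → Pl) (e : Pl) (x : Fin m → ℚ) :
    lf (fun i => cr e (v i)) x = e 0 * XX v 1 x - e 1 * XX v 0 x := by
  rw [lf_apply]
  unfold XX cr
  rw [Finset.mul_sum, Finset.mul_sum, ← Finset.sum_sub_distrib]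
  apply Finset.sum_congr rfl
  intro i _
  ring

theorem XX_toQ (v : Fin m → Pl) (j : Fin 2) (x : Fin m → ℤ) : XX v j (toQ x) = phi v x j := by
  rw [phi_apply]
  unfold XX toQ
  apply Finset.sum_congr rfl
  intro i _
  push_cast
  rfl

theorem exists_int (x : Fin m → ℚ) : ∃ (d : ℕ) (z : Fin m → ℤ), 0 < d ∧
    ∀ i, ((z i : ℤ) : ℚ) = d * x i := by
  classical
  let d : ℕ := ∏ i : Fin m, (x i).den
  have hd : 0 < d := Finset.prod_pos fun i _ => (x i).den_pos
  have hex : ∀ i, ∃ e : ℤ, (e : ℚ) = d * x i := by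
    intro i
    have hdvd : (x i).den ∣ d := Finset.dvd_prod_of_mem (fun i => (x i).den) (Finset.mem_univ i)
    obtain ⟨q, hq⟩ := hdvd
    refine ⟨q * (x i).num, ?_⟩
    rw [hq]
    push_cast
    have h3 := Rat.mul_den_eq_num (x i)
    calc (q : ℚ) * ((x i).num : ℚ) = q * (x i * (x i).den) := by rw [h3]
      _ = _ := by ring
  choose z hz using hex
  exact ⟨d, z, hd, hz⟩

theorem XX_inj {v : Fin m → Pl} (hv : LinearIndependent ℤ v) (x : Fin m → ℚ)
    (h0 : XX v 0 x = 0) (h1 : XX v 1 x = 0) : x = 0 := by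
  obtain ⟨d, z, hd, hz⟩ := exists_int x
  have hzr : ∀ i, ((z i : ℤ) : ℝ) = d * (x i : ℝ) := by
    intro i
    have := hz i
    have h2 : (((z i : ℤ) : ℚ) : ℝ) = ((d * x i : ℚ) : ℝ) := by rw [this]
    push_cast at h2
    exact h2
  have hph : ∀ j, phi v z j = d * XX v j x := by
    intro j
    rw [phi_apply]
    unfold XX
    rw [Finset.mul_sum]
    apply Finset.sum_congr rfl
    intro i _
    rw [hzr]; ring
  have hz0 : z = 0 := by
    by_contra hne
    have h3 := coords_ne (phi_ne hv hne)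
    rw [hph 0, hph 1, h0, h1] at h3
    norm_num at h3
  funext i
  have h4 := hz i
  rw [hz0] at h4
  have hd0 : (d : ℚ) ≠ 0 := by exact_mod_cast (ne_of_gt hd)
  have h5 : (d : ℚ) * x i = 0 := by rw [← h4]; simp
  exact (mul_eq_zero.mp h5).resolve_left hd0

theorem hypM {v : Fin m → Pl} (hv : LinearIndependent ℤ v) (u : Fin m → ℤ) (hu : u ≠ 0) :
    Module.finrank ℚ (parS v u) + Module.finrank ℚ (perpS v u) ≤ m := by
  apply sum_le
  apply disj
  intro x h1 h2
  have e1 : lf (fun i => cr (phi v u) (v i)) x = 0 := h1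
  have e2 : lf (fun i => dt (phi v u) (v i)) x = 0 := h2
  rw [lf_cr] at e1
  rw [lf_dt] at e2
  have h3 := coords_ne (phi_ne hv hu)
  have h4 : ((phi v u) 0 ^ 2 + (phi v u) 1 ^ 2) * XX v 0 x = 0 := by
    linear_combination (phi v u) 0 * e2 - (phi v u) 1 * e1
  have h5 : ((phi v u) 0 ^ 2 + (phi v u) 1 ^ 2) * XX v 1 x = 0 := by
    linear_combination (phi v u) 1 * e2 + (phi v u) 0 * e1
  exact XX_inj hv x ((mul_eq_zero.mp h4).resolve_left h3.ne')
    ((mul_eq_zero.mp h5).resolve_left h3.ne')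

theorem PAR_eq {v : Fin m → Pl} (hv : LinearIndependent ℤ v) (u z : Fin m → ℤ) (hu : u ≠ 0) :
    PAR (lf (fun i => dt (phi v u) (v i))) (lf (fun i => cr (phi v u) (v i))) (toQ z) =
      parS v z := by
  have h3 := coords_ne (phi_ne hv hu)
  ext x
  rw [mem_PAR, lf_dt, lf_dt, lf_cr, lf_cr, XX_toQ, XX_toQ]
  have h6 : x ∈ parS v z ↔ lf (fun i => cr (phi v z) (v i)) x = 0 := Iff.rfl
  rw [h6, lf_cr]
  constructor
  · intro h
    have h4 : ((phi v u) 0 ^ 2 + (phi v u) 1 ^ 2) *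
        ((phi v z) 0 * XX v 1 x - (phi v z) 1 * XX v 0 x) = 0 := by
      linear_combination h
    exact (mul_eq_zero.mp h4).resolve_left h3.ne'
  · intro h
    linear_combination ((phi v u) 0 ^ 2 + (phi v u) 1 ^ 2) * h

theorem PERP_eq {v : Fin m → Pl} (hv : LinearIndependent ℤ v) (u z : Fin m → ℤ) (hu : u ≠ 0) :
    PERP (lf (fun i => dt (phi v u) (v i))) (lf (fun i => cr (phi v u) (v i))) (toQ z) =
      perpS v z := by
  have h3 := coords_ne (phi_ne hv hu)
  ext x
  rw [mem_PERP, lf_dt, lf_dt, lf_cr, lf_cr, XX_toQ, XX_toQ]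
  have h6 : x ∈ perpS v z ↔ lf (fun i => dt (phi v z) (v i)) x = 0 := Iff.rfl
  rw [h6, lf_dt]
  constructor
  · intro h
    have h4 : ((phi v u) 0 ^ 2 + (phi v u) 1 ^ 2) *
        ((phi v z) 0 * XX v 0 x + (phi v z) 1 * XX v 1 x) = 0 := by
      linear_combination h
    exact (mul_eq_zero.mp h4).resolve_left h3.ne'
  · intro h
    linear_combination ((phi v u) 0 ^ 2 + (phi v u) 1 ^ 2) * h

/-- the alternative for a group with a critical direction -/
theorem apply_struct {v : Fin m → Pl} (hv : LinearIndependent ℤ v) (u : Fin m → ℤ)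
    (hu : Crit (parS v) (perpS v) u) :
    (∃ L1 L2 L3 L4 : (Fin m → ℚ) →ₗ[ℚ] ℝ, (∃ x, L1 x * L2 x - L3 x * L4 x ≠ 0) ∧
      ∀ z : Fin m → ℤ, Crit (parS v) (perpS v) z →
        L1 (toQ z) * L2 (toQ z) - L3 (toQ z) * L4 (toQ z) = 0) ∨
    (∃ (l : ℂ) (E : Subfield ℂ), l ≠ 0 ∧ (∀ z ∈ E, (starRingEnd ℂ) z ∈ E) ∧
        (∃ z ∈ E, z.im ≠ 0) ∧
        ∀ z : ℂ, z ∈ E ↔ ∃ q : Fin m → ℚ, l * z = ∑ i, (q i : ℂ) * (⟨v i 0, v i 1⟩ : ℂ)) := by
  obtain ⟨hu0, ⟨w, hw0, hw⟩, hdim⟩ := hu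
  have h3 := coords_ne (phi_ne hv hu0)
  set α := lf (fun i => dt (phi v u) (v i)) with hα
  set β := lf (fun i => cr (phi v u) (v i)) with hβ
  have toQ_ne : ∀ x : Fin m → ℤ, x ≠ 0 → toQ x ≠ 0 := by
    intro x hx h
    apply hx
    funext i
    have := congrFun h i
    simpa [toQ] using this
  have hinj : ∀ x, α x = 0 → β x = 0 → x = 0 := by
    intro x e2 e1
    rw [hα, lf_dt] at e2
    rw [hβ, lf_cr] at e1
    have h4 : ((phi v u) 0 ^ 2 + (phi v u) 1 ^ 2) * XX v 0 x = 0 := by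
      linear_combination (phi v u) 0 * e2 - (phi v u) 1 * e1
    have h5 : ((phi v u) 0 ^ 2 + (phi v u) 1 ^ 2) * XX v 1 x = 0 := by
      linear_combination (phi v u) 1 * e2 + (phi v u) 0 * e1
    exact XX_inj hv x ((mul_eq_zero.mp h4).resolve_left h3.ne')
      ((mul_eq_zero.mp h5).resolve_left h3.ne')
  have hA : ∃ x, x ≠ 0 ∧ β x = 0 := ⟨toQ u, toQ_ne u hu0, hyp0 v u⟩
  have hA' : ∃ x, x ≠ 0 ∧ α x = 0 := ⟨toQ w, toQ_ne w hw0, hw⟩
  have hd : Module.finrank ℚ (LinearMap.ker α) + Module.finrank ℚ (LinearMap.ker β) = m := by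
    rw [hα, hβ, ker_lf, ker_lf, add_comm]
    exact hdim
  rcases struct α β hinj hA hA' hd with ⟨L1, L2, L3, L4, hne, hL⟩ | ⟨l, E, hl, hconj, him, hE⟩
  · left
    refine ⟨L1, L2, L3, L4, hne, ?_⟩
    intro z hz
    apply hL _ (toQ_ne z hz.1)
    rw [hα, hβ, PAR_eq hv u z hu0, PERP_eq hv u z hu0]
    exact hz.2.2
  · right
    set e : ℂ := ⟨phi v u 0, phi v u 1⟩ with he
    have hene : (starRingEnd ℂ) e ≠ 0 := by
      intro h
      have h6 : e = 0 := by
        have := congrArg (starRingEnd ℂ) h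
        simpa using this
      have h7 := congrArg Complex.re h6
      have h8 := congrArg Complex.im h6
      rw [he] at h7 h8
      simp only [Complex.zero_re, Complex.zero_im] at h7 h8
      rw [h7, h8] at h3
      norm_num at h3
    have key : ∀ x : Fin m → ℚ, (α x : ℂ) + (β x : ℂ) * Complex.I =
        (starRingEnd ℂ) e * ∑ i, (x i : ℂ) * (⟨v i 0, v i 1⟩ : ℂ) := by
      intro x
      have hsum : (∑ i, (x i : ℂ) * (⟨v i 0, v i 1⟩ : ℂ)) = ⟨XX v 0 x, XX v 1 x⟩ := by
        apply Complex.ext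
        · rw [Complex.re_sum]
          unfold XX
          apply Finset.sum_congr rfl
          intro i _
          simp
        · rw [Complex.im_sum]
          unfold XX
          apply Finset.sum_congr rfl
          intro i _
          simp
      rw [hsum, hα, hβ, lf_dt, lf_cr, he]
      apply Complex.ext
      · simp
      · simp; ring
    refine ⟨(l : ℂ) / (starRingEnd ℂ) e, E, ?_, hconj, him, ?_⟩
    · exact div_ne_zero (by exact_mod_cast hl) hene
    · intro z
      rw [hE z]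
      constructor
      · rintro ⟨x, hx⟩
        refine ⟨x, ?_⟩
        rw [key] at hx
        field_simp
        rw [hx]
      · rintro ⟨x, hx⟩
        refine ⟨x, ?_⟩
        rw [key, ← hx]
        field_simp

end Pool.Agent.Few65U
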