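import Pool.Agent.Few65U.Defs

set_option autoImplicit false

namespace Pool.Agent.Few65U

open Finset Pool.Agent.Few65

variable {m : ℕ}

theorem sum_crit (hm : 1 ≤ m) (K : ℝ) (hK : 0 ≤ K) (R : ℕ) (Z : Finset (Fin m → ℤ))
    (hZ : ∀ z ∈ Z, z ≠ 0 ∧ nrm z ≤ R)
    (hcr : ∀ M : ℕ, 1 ≤ M →
      (((Z.filter (fun z => nrm z ≤ M)).card : ℕ) : ℝ) ≤ 2 * (2 * (M : ℝ) + 1) ^ (m - 1)) :
    ∑ z ∈ Z, (K * (R / (nrm z : ℝ))) ^ m ≤ 4 * 6 ^ (m - 1) * K ^ m * (R : ℝ) ^ m := by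
  classical
  have hmaps : ∀ z ∈ Z, Nat.log 2 (nrm z) ∈ Finset.range (Nat.log 2 R + 1) := by
    intro z hz
    rw [Finset.mem_range]
    exact Nat.lt_succ_of_le (Nat.log_mono_right (hZ z hz).2)
  rw [← Finset.sum_fiberwise_of_maps_to hmaps]
  have hterm : ∀ j ∈ Finset.range (Nat.log 2 R + 1),
      ∑ z ∈ Z with Nat.log 2 (nrm z) = j, (K * (R / (nrm z : ℝ))) ^ m ≤
        2 * 6 ^ (m - 1) * K ^ m * (R : ℝ) ^ m * (1 / 2) ^ j := by
    intro j _
    have h2j : (0 : ℝ) < 2 ^ j := by positivity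
    have h1 : ∀ z ∈ Z.filter (fun z => Nat.log 2 (nrm z) = j),
        (K * (R / (nrm z : ℝ))) ^ m ≤ (K * (R / (2 : ℝ) ^ j)) ^ m := by
      intro z hz
      rw [Finset.mem_filter] at hz
      have hz1 := nrm_pos (hZ z hz.1).1
      have h3 : 2 ^ j ≤ nrm z := by
        rw [← hz.2]
        exact Nat.pow_log_le_self 2 (by omega)
      have h4 : (2 : ℝ) ^ j ≤ (nrm z : ℝ) := by exact_mod_cast h3
      apply pow_le_pow_left₀ (by positivity)
      apply mul_le_mul_of_nonneg_left _ hK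
      exact div_le_div_of_nonneg_left (by positivity) h2j h4
    have h5 : ((Z.filter (fun z => Nat.log 2 (nrm z) = j)).card : ℝ) ≤
        2 * 6 ^ (m - 1) * ((2 : ℝ) ^ j) ^ (m - 1) := by
      have hsub : Z.filter (fun z => Nat.log 2 (nrm z) = j) ⊆
          Z.filter (fun z => nrm z ≤ 2 ^ (j + 1)) := by
        intro z hz
        rw [Finset.mem_filter] at hz ⊢
        refine ⟨hz.1, ?_⟩
        have h6 : nrm z < 2 ^ (Nat.log 2 (nrm z) + 1) := Nat.lt_pow_succ_log_self (by norm_num) _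
        rw [hz.2] at h6
        exact h6.le
      have h7 : ((Z.filter (fun z => Nat.log 2 (nrm z) = j)).card : ℝ) ≤
          ((Z.filter (fun z => nrm z ≤ 2 ^ (j + 1))).card : ℝ) := by
        exact_mod_cast Finset.card_le_card hsub
      have h8 := hcr (2 ^ (j + 1)) Nat.one_le_two_pow
      push_cast at h8
      have h9 : (2 * (2 : ℝ) ^ (j + 1) + 1) ≤ 6 * 2 ^ j := by
        have : (1 : ℝ) ≤ 2 ^ j := one_le_pow₀ (by norm_num)
        rw [pow_succ]
        linarith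
      have h10 : (2 * (2 : ℝ) ^ (j + 1) + 1) ^ (m - 1) ≤ (6 * 2 ^ j) ^ (m - 1) :=
        pow_le_pow_left₀ (by positivity) h9 _
      rw [mul_pow] at h10
      linarith
    calc ∑ z ∈ Z with Nat.log 2 (nrm z) = j, (K * (R / (nrm z : ℝ))) ^ m
        ≤ ∑ z ∈ Z with Nat.log 2 (nrm z) = j, (K * (R / (2 : ℝ) ^ j)) ^ m := Finset.sum_le_sum h1
      _ = ((Z.filter (fun z => Nat.log 2 (nrm z) = j)).card : ℝ) * (K * (R / (2 : ℝ) ^ j)) ^ m := by
          rw [Finset.sum_const, nsmul_eq_mul]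
      _ ≤ (2 * 6 ^ (m - 1) * ((2 : ℝ) ^ j) ^ (m - 1)) * (K * (R / (2 : ℝ) ^ j)) ^ m :=
          mul_le_mul_of_nonneg_right h5 (by positivity)
      _ = 2 * 6 ^ (m - 1) * K ^ m * (R : ℝ) ^ m * (1 / 2) ^ j := by
          obtain ⟨k, rfl⟩ : ∃ k, m = k + 1 := ⟨m - 1, by omega⟩
          simp only [Nat.add_sub_cancel]
          rw [mul_pow, div_pow, pow_succ ((2 : ℝ) ^ j) k, one_div, inv_pow]
          have : ((2 : ℝ) ^ j) ^ k ≠ 0 := by positivity
          field_simp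
  calc ∑ j ∈ Finset.range (Nat.log 2 R + 1),
        ∑ z ∈ Z with Nat.log 2 (nrm z) = j, (K * (R / (nrm z : ℝ))) ^ m
      ≤ ∑ j ∈ Finset.range (Nat.log 2 R + 1),
          2 * 6 ^ (m - 1) * K ^ m * (R : ℝ) ^ m * (1 / 2) ^ j := Finset.sum_le_sum hterm
    _ = 2 * 6 ^ (m - 1) * K ^ m * (R : ℝ) ^ m * ∑ j ∈ Finset.range (Nat.log 2 R + 1), (1 / 2 : ℝ) ^ j := by
        rw [Finset.mul_sum]
    _ ≤ 2 * 6 ^ (m - 1) * K ^ m * (R : ℝ) ^ m * 2 := by
        apply mul_le_mul_of_nonneg_left _ (by positivity)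
        exact sum_geometric_two_le _
    _ = 4 * 6 ^ (m - 1) * K ^ m * (R : ℝ) ^ m := by ring

open Classical in
/-- MODULE A (Count3) -/
theorem count_perp3 (m : ℕ) : ∃ C : ℝ, 0 ≤ C ∧
    ∀ (par perp : (Fin m → ℤ) → Submodule ℚ (Fin m → ℚ))
    (_ : ∀ u, u ≠ 0 → toQ u ∈ par u)
    (_ : ∀ u z, u ≠ 0 → z ≠ 0 → toQ z ∈ par u → par z = par u ∧ perp z = perp u)
    (_ : ∀ u w, u ≠ 0 → w ≠ 0 → toQ w ∈ perp u → perp u = par w ∧ perp w = par u)
    (_ : ∀ u, u ≠ 0 → Module.finrank ℚ (par u) + Module.finrank ℚ (perp u) ≤ m)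
    (_ : ∀ M : ℕ, 1 ≤ M →
      (((box m M).filter (fun z => Crit par perp z)).card : ℝ) ≤ 2 * (2 * (M : ℝ) + 1) ^ (m - 1))
    (R : ℕ) (_ : 1 ≤ R),
    (((box m R ×ˢ box m R).filter
      (fun p => p.1 ≠ 0 ∧ p.2 ≠ 0 ∧ toQ p.2 ∈ perp p.1)).card : ℝ) ≤ C * (R : ℝ) ^ m := by
  refine ⟨2 * (2 * m * (3 * (4 * 3 ^ m)) ^ (m - 1) + 4 * 6 ^ (m - 1) * (4 * 3 ^ m) ^ m),
    by positivity, ?_⟩
  intro par perp h0 h1 h2 hA hcr R hR
  rcases Nat.eq_zero_or_pos m with hm0 | hm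
  · subst hm0
    have he : (box 0 R ×ˢ box 0 R).filter
      (fun p => p.1 ≠ 0 ∧ p.2 ≠ 0 ∧ toQ p.2 ∈ perp p.1) = ∅ := by
      rw [Finset.filter_eq_empty_iff]
      intro p _ hp
      exact hp.1 (Subsingleton.elim _ _)
    rw [he]
    simp only [Finset.card_empty, Nat.cast_zero]
    positivity
  set T := (box m R ×ˢ box m R).filter
      (fun p => p.1 ≠ 0 ∧ p.2 ≠ 0 ∧ toQ p.2 ∈ perp p.1) with hT
  set T' := T.filter (fun p => mu (par p.1) ≤ mu (par p.2)) with hT'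
  have hK1 : (1 : ℝ) ≤ 4 * 3 ^ m := by
    have h12 : (1 : ℝ) ≤ 3 ^ m := one_le_pow₀ (by norm_num)
    linarith
  -- symmetry
  have hsym : T ⊆ T' ∪ T'.image Prod.swap := by
    intro p hp
    rw [Finset.mem_union]
    rcases le_total (mu (par p.1)) (mu (par p.2)) with h | h
    · left
      exact Finset.mem_filter.mpr ⟨hp, h⟩
    · right
      rw [Finset.mem_image]
      refine ⟨p.swap, ?_, Prod.swap_swap p⟩
      rw [hT] at hp
      rw [Finset.mem_filter, Finset.mem_product] at hp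
      obtain ⟨⟨hp1, hp2⟩, hn1, hn2, hpp⟩ := hp
      refine Finset.mem_filter.mpr ⟨?_, h⟩
      rw [hT, Finset.mem_filter, Finset.mem_product]
      refine ⟨⟨hp2, hp1⟩, hn2, hn1, ?_⟩
      have := (h2 _ _ hn1 hn2 hpp).2
      change toQ p.1 ∈ perp p.2
      rw [this]
      exact h0 _ hn1
  have hTT : (T.card : ℝ) ≤ 2 * T'.card := by
    have h3 := Finset.card_le_card hsym
    have h4 := Finset.card_union_le T' (T'.image Prod.swap)
    have h5 : (T'.image Prod.swap).card ≤ T'.card := Finset.card_image_le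
    have h6 : T.card ≤ 2 * T'.card := by omega
    exact_mod_cast h6
  refine hTT.trans ?_
  rw [mul_assoc]
  apply mul_le_mul_of_nonneg_left _ (by norm_num)
  -- the choice of a minimal vector
  let zs : (Fin m → ℤ) → (Fin m → ℤ) := fun u =>
    if h : u ≠ 0 then Classical.choose (mu_spec h (h0 u h)) else 0
  have hzs : ∀ u, u ≠ 0 → zs u ≠ 0 ∧ toQ (zs u) ∈ par u ∧ nrm (zs u) = mu (par u) := by
    intro u hu
    simp only [zs, dif_pos hu]
    exact Classical.choose_spec (mu_spec hu (h0 u hu))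
  set Z := (box m R).filter (fun z => z ≠ 0) with hZdef
  have hmaps : ∀ p ∈ T', zs p.1 ∈ Z := by
    intro p hp
    rw [hT', Finset.mem_filter, hT, Finset.mem_filter, Finset.mem_product] at hp
    obtain ⟨⟨⟨hp1, hp2⟩, hn1, hn2, hpp⟩, hmu⟩ := hp
    obtain ⟨hz1, hz2, hz3⟩ := hzs _ hn1
    rw [hZdef, Finset.mem_filter, mem_box_iff_nrm]
    refine ⟨?_, hz1⟩
    rw [hz3]
    exact (mu_le hn1 (h0 _ hn1)).trans (mem_box_iff_nrm.mp hp1)
  have hcard := Finset.card_eq_sum_card_fiberwise hmaps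
  rw [hcard]
  push_cast
  -- the bound for one fibre
  have hfib : ∀ z ∈ Z, ((T'.filter (fun p => zs p.1 = z)).card : ℝ) ≤
      if Crit par perp z then (4 * 3 ^ m * (R / (nrm z : ℝ))) ^ m
      else (4 * 3 ^ m * (R / (nrm z : ℝ))) ^ (m - 1) := by
    intro z hz
    rw [hZdef, Finset.mem_filter, mem_box_iff_nrm] at hz
    obtain ⟨hzR, hz0⟩ := hz
    have hz1 := nrm_pos hz0
    have hzpos : (0 : ℝ) < nrm z := by exact_mod_cast hz1
    rcases (T'.filter (fun p => zs p.1 = z)).eq_empty_or_nonempty with he | ⟨q, hq⟩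
    · rw [he]
      simp only [Finset.card_empty, Nat.cast_zero]
      split_ifs <;> positivity
    · rw [Finset.mem_filter, hT', Finset.mem_filter, hT, Finset.mem_filter,
        Finset.mem_product] at hq
      obtain ⟨⟨⟨⟨hq1, hq2⟩, hqn1, hqn2, hqp⟩, hqmu⟩, hqz⟩ := hq
      obtain ⟨hs1, hs2, hs3⟩ := hzs _ hqn1
      rw [hqz] at hs1 hs2 hs3
      obtain ⟨e1, e2⟩ := h1 _ _ hqn1 hz0 hs2
      obtain ⟨e3, e4⟩ := h2 _ _ hqn1 hqn2 hqp
      have hsub : T'.filter (fun p => zs p.1 = z) ⊆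
          ((box m R).filter (fun x => toQ x ∈ par z)) ×ˢ
            ((box m R).filter (fun x => toQ x ∈ perp z)) := by
        intro p hp
        rw [Finset.mem_filter, hT', Finset.mem_filter, hT, Finset.mem_filter,
          Finset.mem_product] at hp
        obtain ⟨⟨⟨⟨hp1, hp2⟩, hpn1, hpn2, hpp⟩, hpmu⟩, hpz⟩ := hp
        obtain ⟨hr1, hr2, hr3⟩ := hzs _ hpn1
        rw [hpz] at hr1 hr2 hr3
        obtain ⟨e5, e6⟩ := h1 _ _ hpn1 hz0 hr2
        rw [Finset.mem_product, Finset.mem_filter, Finset.mem_filter]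
        refine ⟨⟨hp1, ?_⟩, ⟨hp2, ?_⟩⟩
        · rw [e5]; exact h0 _ hpn1
        · rw [e6]; exact hpp
      have hc := Finset.card_le_card hsub
      rw [Finset.card_product] at hc
      have hp1 := pack (par z) (nrm z) R hz1 hzR (by
        intro x hxV hx0
        obtain ⟨i, hi⟩ := exists_coord hx0
        refine ⟨i, le_trans ?_ hi⟩
        rw [e1] at hxV
        have := mu_le hx0 hxV
        rw [← hs3] at this
        exact_mod_cast this)
      have hp2 := pack (perp z) (nrm z) R hz1 hzR (by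
        intro x hxV hx0
        obtain ⟨i, hi⟩ := exists_coord hx0
        refine ⟨i, le_trans ?_ hi⟩
        rw [e2, e3] at hxV
        have := mu_le hx0 hxV
        have h7 : nrm z ≤ nrm x := by rw [hs3]; exact hqmu.trans this
        exact_mod_cast h7)
      have hbase : (1 : ℝ) ≤ 4 * 3 ^ m * (R / (nrm z : ℝ)) := by
        have : (1 : ℝ) ≤ R / (nrm z : ℝ) := by
          rw [le_div_iff₀ hzpos, one_mul]; exact_mod_cast hzR
        nlinarith
      have hboth : ((T'.filter (fun p => zs p.1 = z)).card : ℝ) ≤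
          (4 * 3 ^ m * (R / (nrm z : ℝ))) ^
            (Module.finrank ℚ (par z) + Module.finrank ℚ (perp z)) := by
        rw [pow_add]
        calc ((T'.filter (fun p => zs p.1 = z)).card : ℝ)
            ≤ (((box m R).filter (fun x => toQ x ∈ par z)).card : ℝ) *
              (((box m R).filter (fun x => toQ x ∈ perp z)).card : ℝ) := by exact_mod_cast hc
          _ ≤ (4 * 3 ^ m * (R / (nrm z : ℝ))) ^ (Module.finrank ℚ (par z)) *
              (4 * 3 ^ m * (R / (nrm z : ℝ))) ^ (Module.finrank ℚ (perp z)) :=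
              mul_le_mul hp1 hp2 (by positivity) (by positivity)
      have hsum := hA z hz0
      split_ifs with hcrit
      · exact hboth.trans (pow_le_pow_right₀ hbase hsum)
      · have hne : Module.finrank ℚ (par z) + Module.finrank ℚ (perp z) ≠ m := by
          intro heq
          apply hcrit
          refine ⟨hz0, ⟨q.2, hqn2, ?_⟩, heq⟩
          rw [e2]
          exact hqp
        exact hboth.trans (pow_le_pow_right₀ hbase (by omega))
  refine (Finset.sum_le_sum hfib).trans ?_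
  rw [← Finset.sum_filter_add_sum_filter_not Z (fun z => Crit par perp z)]
  have hS1 : ∑ z ∈ Z.filter (fun z => Crit par perp z),
      (if Crit par perp z then (4 * 3 ^ m * (R / (nrm z : ℝ))) ^ m
      else (4 * 3 ^ m * (R / (nrm z : ℝ))) ^ (m - 1)) =
      ∑ z ∈ Z.filter (fun z => Crit par perp z), (4 * 3 ^ m * (R / (nrm z : ℝ))) ^ m := by
    apply Finset.sum_congr rfl
    intro z hz
    rw [if_pos (Finset.mem_filter.mp hz).2]
  have hS2 : ∑ z ∈ Z.filter (fun z => ¬ Crit par perp z),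
      (if Crit par perp z then (4 * 3 ^ m * (R / (nrm z : ℝ))) ^ m
      else (4 * 3 ^ m * (R / (nrm z : ℝ))) ^ (m - 1)) =
      ∑ z ∈ Z.filter (fun z => ¬ Crit par perp z), (4 * 3 ^ m * (R / (nrm z : ℝ))) ^ (m - 1) := by
    apply Finset.sum_congr rfl
    intro z hz
    rw [if_neg (Finset.mem_filter.mp hz).2]
  rw [hS1, hS2]
  have hZZ : ∀ z ∈ Z, z ≠ 0 ∧ nrm z ≤ R := by
    intro z hz
    rw [hZdef, Finset.mem_filter, mem_box_iff_nrm] at hz
    exact ⟨hz.2, hz.1⟩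
  have hB1 := sum_crit hm (4 * 3 ^ m) (by positivity) R (Z.filter (fun z => Crit par perp z))
    (fun z hz => hZZ z (Finset.mem_filter.mp hz).1) (by
      intro M hM
      refine le_trans ?_ (hcr M hM)
      have hsub : (Z.filter (fun z => Crit par perp z)).filter (fun z => nrm z ≤ M) ⊆
          (box m M).filter (fun z => Crit par perp z) := by
        intro z hz
        rw [Finset.mem_filter, Finset.mem_filter] at hz
        rw [Finset.mem_filter, mem_box_iff_nrm]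
        exact ⟨hz.2, hz.1.2⟩
      exact_mod_cast Finset.card_le_card hsub)
  have hB2 := sum_shells (4 * 3 ^ m) hK1 R hR (Z.filter (fun z => ¬ Crit par perp z))
    (fun z hz => hZZ z (Finset.mem_filter.mp hz).1)
  have hR0 : (R : ℝ) ^ m = (R : ℝ) ^ (m - 1) * R := by
    rw [← pow_succ]
    congr 1
    omega
  have hB3 : 2 * (m : ℝ) * (3 * (4 * 3 ^ m) * R) ^ (m - 1) * R =
      2 * m * (3 * (4 * 3 ^ m)) ^ (m - 1) * (R : ℝ) ^ m := by
    rw [hR0, mul_pow]
    ring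
  rw [hB3] at hB2
  calc _ ≤ 4 * 6 ^ (m - 1) * (4 * 3 ^ m) ^ m * (R : ℝ) ^ m +
      2 * m * (3 * (4 * 3 ^ m)) ^ (m - 1) * (R : ℝ) ^ m := add_le_add hB1 hB2
    _ = (2 * m * (3 * (4 * 3 ^ m)) ^ (m - 1) + 4 * 6 ^ (m - 1) * (4 * 3 ^ m) ^ m) * (R : ℝ) ^ m := by
      ring

end Pool.Agent.Few65U
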