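import Pool.Agent.Few65.Main

set_option autoImplicit false

namespace Pool.Agent.Few65U

open Finset Pool.Agent.Few65

variable {m : ℕ}

/-- `z` is critical: the lines in direction `z` and perpendicular to `z` together carry full rank -/
def Crit (par perp : (Fin m → ℤ) → Submodule ℚ (Fin m → ℚ)) (z : Fin m → ℤ) : Prop :=
  z ≠ 0 ∧ (∃ w : Fin m → ℤ, w ≠ 0 ∧ toQ w ∈ perp z) ∧
    Module.finrank ℚ (par z) + Module.finrank ℚ (perp z) = m

/-- parallel: `α z β x = β z α x` -/
def PAR (α β : (Fin m → ℚ) →ₗ[ℚ] ℝ) (z : Fin m → ℚ) : Submodule ℚ (Fin m → ℚ) where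
  carrier := {x | α z * β x - β z * α x = 0}
  add_mem' := by
    intro a b ha hb
    simp only [Set.mem_ofPred_eq, map_add] at *
    linarith
  zero_mem' := by simp
  smul_mem' := by
    intro r a ha
    simp only [Set.mem_ofPred_eq, map_smul, Rat.smul_def] at *
    linear_combination (r : ℝ) * ha

/-- perpendicular: `α z α x + β z β x = 0` -/
def PERP (α β : (Fin m → ℚ) →ₗ[ℚ] ℝ) (z : Fin m → ℚ) : Submodule ℚ (Fin m → ℚ) where
  carrier := {x | α z * α x + β z * β x = 0}
  add_mem' := by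
    intro a b ha hb
    simp only [Set.mem_ofPred_eq, map_add] at *
    linarith
  zero_mem' := by simp
  smul_mem' := by
    intro r a ha
    simp only [Set.mem_ofPred_eq, map_smul, Rat.smul_def] at *
    linear_combination (r : ℝ) * ha

theorem mem_PAR {α β : (Fin m → ℚ) →ₗ[ℚ] ℝ} {z x : Fin m → ℚ} :
    x ∈ PAR α β z ↔ α z * β x - β z * α x = 0 := Iff.rfl

theorem mem_PERP {α β : (Fin m → ℚ) →ₗ[ℚ] ℝ} {z x : Fin m → ℚ} :
    x ∈ PERP α β z ↔ α z * α x + β z * β x = 0 := Iff.rfl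

end Pool.Agent.Few65U
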