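import Pool.Agent.Few65.Main

set_option autoImplicit false

namespace Pool.Agent.Few65U

open Finset Pool.Agent.Few65

variable {m : ℕ}

open Classical in
/-- energy bound with the difference set -/
theorem energyX (v : Fin m → Pl) (N : ℕ) (A : Finset (Fin m → ℤ))
    (hA : A ⊆ box m N) (w : Pl) (P : Finset Pl) (hP : P = A.image (fun a => w + phi v a)) :
    (((P ×ˢ P).image (fun p => p.1 - p.2)).card : ℝ) ^ 2 ≤ ((P.offDiag.image (fun p => dist p.1 p.2)).card + 1) *
      (2 * (2 * ((4 * N : ℕ) : ℝ) + 1) ^ m +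
        (((box m (4 * N) ×ˢ box m (4 * N)).filter
          (fun p => p.1 ≠ 0 ∧ p.2 ≠ 0 ∧ toQ p.2 ∈ perpS v p.1)).card : ℝ)) := by
  set X := (A ×ˢ A).image (fun p => p.1 - p.2) with hX
  have hXbox : X ⊆ box m (2 * N) := by
    intro x hx
    rw [hX, Finset.mem_image] at hx
    obtain ⟨p, hp, rfl⟩ := hx
    rw [Finset.mem_product] at hp
    have h1 := mem_box.mp (hA hp.1)
    have h2 := mem_box.mp (hA hp.2)
    rw [mem_box]
    intro i
    have h3 := abs_le.mp (h1 i)
    have h4 := abs_le.mp (h2 i)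
    rw [Pi.sub_apply, abs_le]
    push_cast
    constructor <;> linarith
  have hPX : ((P ×ˢ P).image (fun p => p.1 - p.2)).card ≤ X.card := by
    have hsub : (P ×ˢ P).image (fun p => p.1 - p.2) ⊆ X.image (fun x => phi v x) := by
      intro d hd
      rw [Finset.mem_image] at hd
      obtain ⟨⟨p, q⟩, hpq, rfl⟩ := hd
      obtain ⟨hp, hq⟩ := Finset.mem_product.mp hpq
      simp only at hp hq
      rw [hP, Finset.mem_image] at hp hq
      obtain ⟨a, ha, rfl⟩ := hp
      obtain ⟨b, hb, rfl⟩ := hq
      rw [Finset.mem_image]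
      refine ⟨a - b, ?_, ?_⟩
      · rw [hX, Finset.mem_image]
        exact ⟨(a, b), Finset.mem_product.mpr ⟨ha, hb⟩, rfl⟩
      · rw [phi_sub, add_sub_add_left_eq_sub]
    exact (Finset.card_le_card hsub).trans Finset.card_image_le
  -- the set of lengths
  set g : (Fin m → ℤ) → ℝ := fun x => Real.sqrt (sl (phi v x)) with hg
  have himg : (X.image g).card ≤ (P.offDiag.image (fun p => dist p.1 p.2)).card + 1 := by
    have hsub : X.image g ⊆ insert 0 (P.offDiag.image (fun p => dist p.1 p.2)) := by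
      intro t ht
      rw [Finset.mem_image] at ht
      obtain ⟨x, hx, rfl⟩ := ht
      rw [hX, Finset.mem_image] at hx
      obtain ⟨p, hp, rfl⟩ := hx
      rw [Finset.mem_product] at hp
      have hd : g (p.1 - p.2) = dist (w + phi v p.1) (w + phi v p.2) := by
        rw [dist_eq_sqrt, hg]
        simp only
        rw [phi_sub, add_sub_add_left_eq_sub]
      rw [Finset.mem_insert]
      by_cases he : w + phi v p.1 = w + phi v p.2
      · left
        rw [hd, he, dist_self]
      · right
        rw [Finset.mem_image]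
        refine ⟨(w + phi v p.1, w + phi v p.2), ?_, hd.symm⟩
        rw [Finset.mem_offDiag, hP]
        exact ⟨Finset.mem_image_of_mem _ hp.1, Finset.mem_image_of_mem _ hp.2, he⟩
    exact (Finset.card_le_card hsub).trans (Finset.card_insert_le _ _)
  have hcs := cs_fiber X g
  -- injection
  set B := box m (4 * N) with hB
  have hB0 : (0 : Fin m → ℤ) ∈ B := by
    rw [hB, mem_box]; intro i; simp
  have hinj : ((X ×ˢ X).filter (fun p => g p.1 = g p.2)).card ≤
      (({0} ×ˢ B) ∪ ((B ×ˢ {0}) ∪ ((B ×ˢ B).filter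
          (fun p => p.1 ≠ 0 ∧ p.2 ≠ 0 ∧ toQ p.2 ∈ perpS v p.1)))).card := by
    apply Finset.card_le_card_of_injOn (fun p => (p.1 - p.2, p.1 + p.2))
    · intro p hp
      rw [Finset.mem_coe, Finset.mem_filter, Finset.mem_product] at hp
      obtain ⟨⟨hp1, hp2⟩, hpg⟩ := hp
      have hb1 := mem_box.mp (hXbox hp1)
      have hb2 := mem_box.mp (hXbox hp2)
      have hm1 : p.1 - p.2 ∈ B := by
        rw [hB, mem_box]
        intro i
        have h3 := abs_le.mp (hb1 i)
        have h4 := abs_le.mp (hb2 i)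
        push_cast at h3 h4 ⊢
        rw [Pi.sub_apply, abs_le]
        constructor <;> linarith
      have hm2 : p.1 + p.2 ∈ B := by
        rw [hB, mem_box]
        intro i
        have h3 := abs_le.mp (hb1 i)
        have h4 := abs_le.mp (hb2 i)
        push_cast at h3 h4 ⊢
        rw [Pi.add_apply, abs_le]
        constructor <;> linarith
      have hperp : toQ (p.1 + p.2) ∈ perpS v (p.1 - p.2) := by
        rw [mem_perpS, phi_sub, phi_add]
        have hs : sl (phi v p.1) = sl (phi v p.2) := by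
          have h5 : 0 ≤ sl (phi v p.1) := by unfold sl; positivity
          have h6 : 0 ≤ sl (phi v p.2) := by unfold sl; positivity
          exact (Real.sqrt_inj h5 h6).mp hpg
        unfold sl at hs
        unfold dt
        simp only [PiLp.sub_apply, PiLp.add_apply]
        linear_combination hs
      rw [Finset.mem_coe, Finset.mem_union, Finset.mem_union]
      by_cases h1 : p.1 - p.2 = 0
      · left
        exact Finset.mem_product.mpr ⟨Finset.mem_singleton.mpr h1, hm2⟩
      · by_cases h2 : p.1 + p.2 = 0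
        · right; left
          exact Finset.mem_product.mpr ⟨hm1, Finset.mem_singleton.mpr h2⟩
        · right; right
          exact Finset.mem_filter.mpr ⟨Finset.mem_product.mpr ⟨hm1, hm2⟩, h1, h2, hperp⟩
    · intro p _ q _ hpq
      simp only [Prod.mk.injEq] at hpq
      obtain ⟨e1, e2⟩ := hpq
      have f1 : p.1 = q.1 := by
        funext i
        have a1 := congrFun e1 i
        have a2 := congrFun e2 i
        simp only [Pi.sub_apply, Pi.add_apply] at a1 a2
        linarith
      have f2 : p.2 = q.2 := by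
        rw [f1] at e2
        exact add_left_cancel e2
      exact Prod.ext f1 f2
  have hun : (({0} ×ˢ B) ∪ ((B ×ˢ {0}) ∪ ((B ×ˢ B).filter
          (fun p => p.1 ≠ 0 ∧ p.2 ≠ 0 ∧ toQ p.2 ∈ perpS v p.1)))).card ≤
        2 * (2 * (4 * N) + 1) ^ m + ((B ×ˢ B).filter
          (fun p => p.1 ≠ 0 ∧ p.2 ≠ 0 ∧ toQ p.2 ∈ perpS v p.1)).card := by
    refine (Finset.card_union_le _ _).trans ?_
    have h1 := Finset.card_union_le (B ×ˢ ({0} : Finset (Fin m → ℤ))) ((B ×ˢ B).filter
          (fun p => p.1 ≠ 0 ∧ p.2 ≠ 0 ∧ toQ p.2 ∈ perpS v p.1))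
    rw [Finset.card_product, Finset.card_singleton, one_mul]
    rw [Finset.card_product, Finset.card_singleton, mul_one] at h1
    rw [hB, card_box] at *
    omega
  have hfin : ((P ×ˢ P).image (fun p => p.1 - p.2)).card ^ 2 ≤ ((P.offDiag.image (fun p => dist p.1 p.2)).card + 1) *
      (2 * (2 * (4 * N) + 1) ^ m + ((B ×ˢ B).filter
          (fun p => p.1 ≠ 0 ∧ p.2 ≠ 0 ∧ toQ p.2 ∈ perpS v p.1)).card) := by
    calc ((P ×ˢ P).image (fun p => p.1 - p.2)).card ^ 2 ≤ X.card ^ 2 := Nat.pow_le_pow_left hPX 2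
      _ ≤ _ := hcs
      _ ≤ _ := Nat.mul_le_mul himg (hinj.trans hun)
  have := (Nat.cast_le (α := ℝ)).mpr hfin
  push_cast at this ⊢
  exact this

end Pool.Agent.Few65U
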