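import Pool.Agent.Few65.Main

/-!
# Integer points of a box on a quadric
-/

set_option autoImplicit false

namespace Pool.Agent.Few65U

open Finset Pool.Agent.Few65

variable {m : ℕ}

/-- the linear form `L` as a polynomial -/
private noncomputable def linPoly (L : (Fin m → ℚ) →ₗ[ℚ] ℝ) : MvPolynomial (Fin m) ℝ :=
  ∑ i, MvPolynomial.C (L (Pi.single i 1)) * MvPolynomial.X i

private theorem eval_linPoly (L : (Fin m → ℚ) →ₗ[ℚ] ℝ) (x : Fin m → ℚ) :
    MvPolynomial.eval (fun i => (x i : ℝ)) (linPoly L) = L x := by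
  have h1 : x = ∑ i, x i • (Pi.single i (1 : ℚ) : Fin m → ℚ) := by
    funext j
    simp [Finset.sum_apply, Pi.single_apply]
  conv_rhs => rw [h1]
  rw [map_sum]
  unfold linPoly
  rw [map_sum]
  refine Finset.sum_congr rfl fun i _ => ?_
  rw [map_mul, MvPolynomial.eval_C, MvPolynomial.eval_X, map_smul, Rat.smul_def, mul_comm]

private theorem totalDegree_linPoly (L : (Fin m → ℚ) →ₗ[ℚ] ℝ) : (linPoly L).totalDegree ≤ 1 := by
  unfold linPoly
  refine MvPolynomial.totalDegree_finsetSum_le fun i _ => ?_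
  refine (MvPolynomial.totalDegree_mul _ _).trans ?_
  rw [MvPolynomial.totalDegree_C, MvPolynomial.totalDegree_X]

open Classical in
/-- MODULE B (SZ): a quadric contains at most `2 (2M+1)^(m-1)` integer points of the box -/
theorem sz (L1 L2 L3 L4 : (Fin m → ℚ) →ₗ[ℚ] ℝ)
    (hne : ∃ x : Fin m → ℚ, L1 x * L2 x - L3 x * L4 x ≠ 0) (M : ℕ) (hM : 1 ≤ M) :
    (((box m M).filter (fun z => L1 (toQ z) * L2 (toQ z) - L3 (toQ z) * L4 (toQ z) = 0)).card : ℝ)
      ≤ 2 * (2 * (M : ℝ) + 1) ^ (m - 1) := by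
  set P : MvPolynomial (Fin m) ℝ := linPoly L1 * linPoly L2 - linPoly L3 * linPoly L4 with hP
  have hev : ∀ x : Fin m → ℚ, MvPolynomial.eval (fun i => (x i : ℝ)) P =
      L1 x * L2 x - L3 x * L4 x := by
    intro x
    rw [hP, map_sub, map_mul, map_mul, eval_linPoly, eval_linPoly, eval_linPoly, eval_linPoly]
  have hP0 : P ≠ 0 := by
    intro h0
    obtain ⟨x, hx⟩ := hne
    apply hx
    rw [← hev x, h0, map_zero]
  have hdeg : P.totalDegree ≤ 2 := by
    refine (MvPolynomial.totalDegree_sub _ _).trans (max_le ?_ ?_)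
    · exact (MvPolynomial.totalDegree_mul _ _).trans
        (Nat.add_le_add (totalDegree_linPoly L1) (totalDegree_linPoly L2))
    · exact (MvPolynomial.totalDegree_mul _ _).trans
        (Nat.add_le_add (totalDegree_linPoly L3) (totalDegree_linPoly L4))
  set S : Finset ℝ := (Finset.Icc (-(M : ℤ)) M).image (fun z : ℤ => (z : ℝ)) with hS
  have hScard : S.card = 2 * M + 1 := by
    rw [hS, Finset.card_image_of_injective _ Int.cast_injective, Int.card_Icc]
    omega
  have hsz := MvPolynomial.schwartz_zippel_totalDegree hP0 S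
  set F : Finset (Fin m → ℝ) :=
    (Fintype.piFinset fun _ => S).filter (fun f => MvPolynomial.eval f P = 0) with hF
  have hcard : ((box m M).filter
      (fun z => L1 (toQ z) * L2 (toQ z) - L3 (toQ z) * L4 (toQ z) = 0)).card ≤ F.card := by
    refine Finset.card_le_card_of_injOn (fun z i => (z i : ℝ)) ?_ ?_
    · intro z hz
      rw [Finset.mem_coe, Finset.mem_filter] at hz
      rw [Finset.mem_coe, hF, Finset.mem_filter, Fintype.mem_piFinset]
      refine ⟨fun i => ?_, ?_⟩
      · rw [hS]
        refine Finset.mem_image_of_mem _ ?_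
        have h1 := mem_box.1 hz.1 i
        exact Finset.mem_Icc.2 (abs_le.1 h1)
      · have h2 := hev (toQ z)
        have h3 : (fun i => ((toQ z i : ℚ) : ℝ)) = fun i => ((z i : ℤ) : ℝ) := by
          funext i
          simp [toQ]
        rw [h3] at h2
        rw [h2]
        exact hz.2
    · intro z _ z' _ h
      funext i
      exact Int.cast_injective (congrFun h i)
  have hF1 : (F.card : ℝ) / (2 * (M : ℝ) + 1) ^ m ≤ 2 / (2 * (M : ℝ) + 1) := by
    have h1 : ((F.card : NNRat) / (S.card ^ m : NNRat)) ≤ 2 / S.card := by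
      refine hsz.trans ?_
      gcongr
      exact_mod_cast hdeg
    have h2 : (((F.card : NNRat) / (S.card ^ m : NNRat) : NNRat) : ℝ) ≤
        ((2 / S.card : NNRat) : ℝ) := by exact_mod_cast h1
    rw [hScard] at h2
    push_cast at h2
    exact h2
  have hpos : (0 : ℝ) < 2 * (M : ℝ) + 1 := by positivity
  have hone : (1 : ℝ) ≤ 2 * (M : ℝ) + 1 := by
    have : (0 : ℝ) ≤ M := Nat.cast_nonneg M
    linarith
  have hF2 : (F.card : ℝ) ≤ 2 * (2 * (M : ℝ) + 1) ^ (m - 1) := by
    rw [div_le_iff₀ (by positivity)] at hF1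
    refine hF1.trans ?_
    rcases m with _ | m
    · simp only [pow_zero, mul_one, zero_tsub]
      exact div_le_self (by norm_num) hone
    · rw [Nat.add_sub_cancel, pow_succ]
      refine le_of_eq ?_
      field_simp
  exact (by exact_mod_cast hcard : _ ≤ (F.card : ℝ)).trans hF2

end Pool.Agent.Few65U
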