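import Pool.Agent.Few65U.Apply
import Pool.Agent.Few65U.Count3
import Pool.Agent.Few65U.SZ
import Pool.Agent.Few65U.Energy

set_option autoImplicit false

namespace Pool.Agent.Few65U

open Finset Pool.Agent.Few65

variable {m : ℕ}

theorem mainU2 (m : ℕ) :
    ∃ c : ℝ, 0 < c ∧ ∀ v : Fin m → EuclideanSpace ℝ (Fin 2), LinearIndependent ℤ v →
      (¬ ∃ (l : ℂ) (E : Subfield ℂ), l ≠ 0 ∧ (∀ z ∈ E, (starRingEnd ℂ) z ∈ E) ∧
        (∃ z ∈ E, z.im ≠ 0) ∧
        ∀ z : ℂ, z ∈ E ↔ ∃ q : Fin m → ℚ, l * z = ∑ i, (q i : ℂ) * (⟨v i 0, v i 1⟩ : ℂ)) →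
      ∀ (N : ℕ) (w : EuclideanSpace ℝ (Fin 2)) (P : Finset (EuclideanSpace ℝ (Fin 2))),
        (∀ p ∈ P, ∃ a : Fin m → ℤ, (∀ i, |a i| ≤ (N : ℤ)) ∧ p = w + ∑ i, a i • v i) →
        2 ≤ P.card →
        c * (((P ×ˢ P).image (fun p => p.1 - p.2)).card : ℝ) ^ 2 ≤
          (2 * (N : ℝ) + 1) ^ m * ((P.offDiag.image (fun p => dist p.1 p.2)).card : ℝ) := by
  classical
  obtain ⟨C, hC0, hC⟩ := count_perp3 m
  set C1 : ℝ := C * 2 ^ m with hC1
  set C2 : ℝ := 2 * 4 ^ m + C1 with hC2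
  have hC1' : 0 ≤ C1 := by positivity
  have hC2' : 0 < C2 := by positivity
  refine ⟨1 / (2 * C2), by positivity, ?_⟩
  intro v hv hE N w P hP hP2
  set A := (box m N).filter (fun a => w + phi v a ∈ P) with hA
  have hPA : P = A.image (fun a => w + phi v a) := by
    ext p
    rw [Finset.mem_image]
    constructor
    · intro hp
      obtain ⟨a, ha, hpa⟩ := hP p hp
      refine ⟨a, ?_, hpa.symm⟩
      rw [hA, Finset.mem_filter]
      refine ⟨mem_box.mpr ha, ?_⟩
      have : w + phi v a = p := hpa.symm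
      rw [this]; exact hp
    · rintro ⟨a, ha, rfl⟩
      exact (Finset.mem_filter.mp ha).2
  have hN0 : (0 : ℝ) ≤ N := Nat.cast_nonneg N
  have hNpos : (0 : ℝ) < 2 * (N : ℝ) + 1 := by positivity
  have hcrit : ∀ M : ℕ, 1 ≤ M →
      (((box m M).filter (fun z => Crit (parS v) (perpS v) z)).card : ℝ) ≤
        2 * (2 * (M : ℝ) + 1) ^ (m - 1) := by
    intro M hM
    by_cases hc : ∃ u, Crit (parS v) (perpS v) u
    · obtain ⟨u, hu⟩ := hc
      rcases apply_struct hv u hu with ⟨L1, L2, L3, L4, hne, hL⟩ | hbad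
      · refine le_trans ?_ (sz L1 L2 L3 L4 hne M hM)
        have hsub : (box m M).filter (fun z => Crit (parS v) (perpS v) z) ⊆
            (box m M).filter
              (fun z => L1 (toQ z) * L2 (toQ z) - L3 (toQ z) * L4 (toQ z) = 0) := by
          intro z hz
          rw [Finset.mem_filter] at hz ⊢
          exact ⟨hz.1, hL z hz.2⟩
        exact_mod_cast Finset.card_le_card hsub
      · exact absurd hbad hE
    · push Not at hc
      have : (box m M).filter (fun z => Crit (parS v) (perpS v) z) = ∅ := by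
        rw [Finset.filter_eq_empty_iff]
        intro z _
        exact hc z
      rw [this]
      simp only [Finset.card_empty, Nat.cast_zero]
      positivity
  -- the energy
  have hen := energyX v N A (Finset.filter_subset _ _) w P hPA
  set D : ℝ := ((P.offDiag.image (fun p => dist p.1 p.2)).card : ℝ) with hDdef
  set S : ℝ := (((P ×ˢ P).image (fun p => p.1 - p.2)).card : ℝ) with hSdef
  set T : ℝ := (((box m (4 * N) ×ˢ box m (4 * N)).filter
        (fun p => p.1 ≠ 0 ∧ p.2 ≠ 0 ∧ toQ p.2 ∈ perpS v p.1)).card : ℝ) with hTdef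
  have hT : T ≤ C1 * (2 * (N : ℝ) + 1) ^ m := by
    rcases Nat.eq_zero_or_pos N with hN | hN
    · have : T = 0 := by
        rw [hTdef]
        norm_cast
        rw [Finset.card_eq_zero, Finset.filter_eq_empty_iff]
        intro p hp
        rw [Finset.mem_product, mem_box_iff_nrm, mem_box_iff_nrm, hN] at hp
        intro hh
        have := nrm_pos hh.1
        omega
      rw [this]
      positivity
    · have h1 := hC (parS v) (perpS v) (fun u _ => hyp0 v u) (hyp1 hv) (hyp2 hv)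
        (fun u hu => hypM hv u hu) hcrit (4 * N) (by omega)
      have h2 : T ≤ C * ((4 * N : ℕ) : ℝ) ^ m := by
        rw [hTdef]
        convert h1
      refine h2.trans ?_
      have h3 : ((4 * N : ℕ) : ℝ) ≤ 2 * (2 * (N : ℝ) + 1) := by push_cast; linarith
      calc C * ((4 * N : ℕ) : ℝ) ^ m ≤ C * (2 * (2 * (N : ℝ) + 1)) ^ m := by
            apply mul_le_mul_of_nonneg_left _ hC0
            exact pow_le_pow_left₀ (Nat.cast_nonneg _) h3 m
        _ = C1 * (2 * (N : ℝ) + 1) ^ m := by rw [hC1, mul_pow]; ring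
  have h8 : (2 * ((4 * N : ℕ) : ℝ) + 1) ^ m ≤ 4 ^ m * (2 * (N : ℝ) + 1) ^ m := by
    rw [← mul_pow]
    apply pow_le_pow_left₀ (by positivity)
    push_cast; linarith
  have h9 : 2 * (2 * ((4 * N : ℕ) : ℝ) + 1) ^ m + T ≤ C2 * (2 * (N : ℝ) + 1) ^ m := by
    calc 2 * (2 * ((4 * N : ℕ) : ℝ) + 1) ^ m + T
        ≤ 2 * (4 ^ m * (2 * (N : ℝ) + 1) ^ m) + C1 * (2 * (N : ℝ) + 1) ^ m := by linarith
      _ = C2 * (2 * (N : ℝ) + 1) ^ m := by rw [hC2]; ring
  have hD0 : 0 ≤ D := Nat.cast_nonneg _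
  have h10 : S ^ 2 ≤ (D + 1) * (C2 * (2 * (N : ℝ) + 1) ^ m) := by
    calc S ^ 2 ≤ (D + 1) * (2 * (2 * ((4 * N : ℕ) : ℝ) + 1) ^ m + T) := by
          convert hen
      _ ≤ _ := mul_le_mul_of_nonneg_left h9 (by linarith)
  -- at least one distance
  have hD1 : 1 ≤ D := by
    have h12 : 1 < P.card := by omega
    obtain ⟨a, ha, b, hb, hab⟩ := Finset.one_lt_card.mp h12
    have h13' : P.offDiag.Nonempty := ⟨(a, b), Finset.mem_offDiag.mpr ⟨ha, hb, hab⟩⟩
    have h13 : (P.offDiag.image (fun p => dist p.1 p.2)).Nonempty := h13'.image _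
    have h14 := Finset.card_pos.mpr h13
    rw [hDdef]
    exact Nat.one_le_cast.mpr h14
  rw [div_mul_eq_mul_div, one_mul, div_le_iff₀ (by positivity)]
  have hB : (0 : ℝ) ≤ C2 * (2 * (N : ℝ) + 1) ^ m := by positivity
  calc S ^ 2 ≤ (D + 1) * (C2 * (2 * (N : ℝ) + 1) ^ m) := h10
    _ ≤ (D + D) * (C2 * (2 * (N : ℝ) + 1) ^ m) := mul_le_mul_of_nonneg_right (by linarith) hB
    _ = (2 * (N : ℝ) + 1) ^ m * D * (2 * C2) := by ring

end Pool.Agent.Few65U
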