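import Pool.Agent.Few65U.Defs
import Mathlib

set_option autoImplicit false

namespace Pool.Agent.Few65U

open Finset Pool.Agent.Few65

variable {m : ℕ}

theorem sup_top {A B : Submodule ℚ (Fin m → ℚ)} (hd : Disjoint A B)
    (h : m ≤ Module.finrank ℚ A + Module.finrank ℚ B) : A ⊔ B = ⊤ := by
  apply Submodule.eq_top_of_disjoint A B _ hd
  rw [Module.finrank_fin_fun]
  exact h

theorem sum_le {A B : Submodule ℚ (Fin m → ℚ)} (hd : Disjoint A B) :
    Module.finrank ℚ A + Module.finrank ℚ B ≤ m := by
  have := Submodule.finrank_add_finrank_le_of_disjoint hd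
  rw [Module.finrank_fin_fun] at this
  exact this

theorem disj {A B : Submodule ℚ (Fin m → ℚ)} (h : ∀ x, x ∈ A → x ∈ B → x = 0) : Disjoint A B := by
  rw [Submodule.disjoint_def]
  exact h

theorem crit_maps (α β : (Fin m → ℚ) →ₗ[ℚ] ℝ) (hinj : ∀ x, α x = 0 → β x = 0 → x = 0)
    (hdim : Module.finrank ℚ (LinearMap.ker α) + Module.finrank ℚ (LinearMap.ker β) = m)
    (z : Fin m → ℚ) (ha : α z ≠ 0) (hb : β z ≠ 0)
    (hz : Module.finrank ℚ (PAR α β z) + Module.finrank ℚ (PERP α β z) = m) :
    (∀ v, ∃ b, β b = β z / α z * α v) ∧ (∀ v, ∃ b, α b = β z / α z * β v) := by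
  have d1 : Disjoint (LinearMap.ker β) (PAR α β z) := disj (by
    intro x h1 h2
    rw [LinearMap.mem_ker] at h1
    rw [mem_PAR, h1] at h2
    have : α x = 0 := by
      have : β z * α x = 0 := by linarith
      exact (mul_eq_zero.mp this).resolve_left hb
    exact hinj x this h1)
  have d2 : Disjoint (LinearMap.ker α) (PAR α β z) := disj (by
    intro x h1 h2
    rw [LinearMap.mem_ker] at h1
    rw [mem_PAR, h1] at h2
    have : β x = 0 := by
      have : α z * β x = 0 := by linarith
      exact (mul_eq_zero.mp this).resolve_left ha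
    exact hinj x h1 this)
  have d3 : Disjoint (LinearMap.ker β) (PERP α β z) := disj (by
    intro x h1 h2
    rw [LinearMap.mem_ker] at h1
    rw [mem_PERP, h1] at h2
    have : α x = 0 := by
      have : α z * α x = 0 := by linarith
      exact (mul_eq_zero.mp this).resolve_left ha
    exact hinj x this h1)
  have d4 : Disjoint (LinearMap.ker α) (PERP α β z) := disj (by
    intro x h1 h2
    rw [LinearMap.mem_ker] at h1
    rw [mem_PERP, h1] at h2
    have : β x = 0 := by
      have : β z * β x = 0 := by linarith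
      exact (mul_eq_zero.mp this).resolve_left hb
    exact hinj x h1 this)
  have e1 := sum_le d1
  have e2 := sum_le d2
  have e3 := sum_le d3
  have e4 := sum_le d4
  have t1 : LinearMap.ker α ⊔ PAR α β z = ⊤ := sup_top d2 (by omega)
  have t2 : LinearMap.ker β ⊔ PERP α β z = ⊤ := sup_top d3 (by omega)
  constructor
  · intro v
    have hv : v ∈ LinearMap.ker α ⊔ PAR α β z := by rw [t1]; trivial
    obtain ⟨a, haa, b, hbb, hab⟩ := Submodule.mem_sup.mp hv
    refine ⟨b, ?_⟩
    rw [LinearMap.mem_ker] at haa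
    rw [mem_PAR] at hbb
    rw [← hab, map_add, haa, zero_add]
    field_simp
    linarith
  · intro v
    have hv : v ∈ LinearMap.ker β ⊔ PERP α β z := by rw [t2]; trivial
    obtain ⟨a, haa, b, hbb, hab⟩ := Submodule.mem_sup.mp hv
    refine ⟨-b, ?_⟩
    rw [LinearMap.mem_ker] at haa
    rw [mem_PERP] at hbb
    rw [← hab, map_add, haa, zero_add, map_neg]
    field_simp
    linarith

theorem both (α β : (Fin m → ℚ) →ₗ[ℚ] ℝ) (hinj : ∀ x, α x = 0 → β x = 0 → x = 0)
    (hdim : Module.finrank ℚ (LinearMap.ker α) + Module.finrank ℚ (LinearMap.ker β) = m)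
    (u v : Fin m → ℚ) : ∃ x, α x = α u ∧ β x = β v := by
  have d : Disjoint (LinearMap.ker α) (LinearMap.ker β) := disj (by
    intro x h1 h2
    exact hinj x h1 h2)
  have t := sup_top d (by omega)
  have hu : u ∈ LinearMap.ker α ⊔ LinearMap.ker β := by rw [t]; trivial
  have hv : v ∈ LinearMap.ker α ⊔ LinearMap.ker β := by rw [t]; trivial
  obtain ⟨a, ha, b, hb, hab⟩ := Submodule.mem_sup.mp hu
  obtain ⟨c, hc, d, hd, hcd⟩ := Submodule.mem_sup.mp hv
  rw [LinearMap.mem_ker] at ha hb hc hd
  refine ⟨b + c, ?_, ?_⟩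
  · rw [← hab, map_add, map_add, ha, hc]; ring
  · rw [← hcd, map_add, map_add, hb, hd]; ring

/-- the multiplier field of a finite dimensional rational subspace of the reals -/
def multK (X : Submodule ℚ ℝ) [FiniteDimensional ℚ X] : Subfield ℝ where
  carrier := {t | ∀ x ∈ X, t * x ∈ X}
  mul_mem' := by
    intro a b ha hb x hx
    rw [mul_assoc]
    exact ha _ (hb _ hx)
  one_mem' := by
    intro x hx
    rw [one_mul]; exact hx
  add_mem' := by
    intro a b ha hb x hx
    rw [add_mul]
    exact X.add_mem (ha _ hx) (hb _ hx)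
  zero_mem' := by
    intro x hx
    rw [zero_mul]; exact X.zero_mem
  neg_mem' := by
    intro a ha x hx
    rw [neg_mul]
    exact X.neg_mem (ha _ hx)
  inv_mem' := by
    intro t ht
    by_cases h0 : t = 0
    · rw [h0, inv_zero]
      intro x hx
      rw [zero_mul]; exact X.zero_mem
    · intro x hx
      let f : X →ₗ[ℚ] X :=
        { toFun := fun y => ⟨t * y, ht _ y.2⟩
          map_add' := by
            intro a b
            apply Subtype.ext
            simp [mul_add]
          map_smul' := by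
            intro r a
            apply Subtype.ext
            simp [Rat.smul_def]
            ring }
      have hf : Function.Injective f := by
        intro a b hab
        have h1 : t * (a : ℝ) = t * (b : ℝ) := congrArg Subtype.val hab
        exact Subtype.ext (mul_left_cancel₀ h0 h1)
      have hs := LinearMap.injective_iff_surjective.mp hf
      obtain ⟨y, hy⟩ := hs ⟨x, hx⟩
      have h2 : t * (y : ℝ) = x := congrArg Subtype.val hy
      have h3 : t⁻¹ * x = y := by
        rw [← h2, ← mul_assoc, inv_mul_cancel₀ h0, one_mul]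
      rw [h3]; exact y.2

theorem mem_multK {X : Submodule ℚ ℝ} [FiniteDimensional ℚ X] {t : ℝ} :
    t ∈ multK X ↔ ∀ x ∈ X, t * x ∈ X := Iff.rfl

/-- the field `K + i s⁻¹ K` -/
def EE (K : Subfield ℝ) (s : ℝ) (hs : s ≠ 0) (hs2 : s * s ∈ K) : Subfield ℂ where
  carrier := {z | z.re ∈ K ∧ s * z.im ∈ K}
  mul_mem' := by
    rintro a b ⟨ha1, ha2⟩ ⟨hb1, hb2⟩
    constructor
    · rw [Complex.mul_re]
      have : a.im * b.im = (s * a.im) * (s * b.im) * (s * s)⁻¹ := by field_simp
      rw [this]
      exact K.sub_mem (K.mul_mem ha1 hb1) (K.mul_mem (K.mul_mem ha2 hb2) (K.inv_mem hs2))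
    · rw [Complex.mul_im]
      have : s * (a.re * b.im + a.im * b.re) = a.re * (s * b.im) + (s * a.im) * b.re := by ring
      rw [this]
      exact K.add_mem (K.mul_mem ha1 hb2) (K.mul_mem ha2 hb1)
  one_mem' := by
    constructor
    · rw [Complex.one_re]; exact K.one_mem
    · rw [Complex.one_im, mul_zero]; exact K.zero_mem
  add_mem' := by
    rintro a b ⟨ha1, ha2⟩ ⟨hb1, hb2⟩
    constructor
    · rw [Complex.add_re]; exact K.add_mem ha1 hb1
    · rw [Complex.add_im, mul_add]; exact K.add_mem ha2 hb2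
  zero_mem' := by
    constructor
    · rw [Complex.zero_re]; exact K.zero_mem
    · rw [Complex.zero_im, mul_zero]; exact K.zero_mem
  neg_mem' := by
    rintro a ⟨ha1, ha2⟩
    constructor
    · rw [Complex.neg_re]; exact K.neg_mem ha1
    · rw [Complex.neg_im, mul_neg]; exact K.neg_mem ha2
  inv_mem' := by
    rintro a ⟨ha1, ha2⟩
    have hn : Complex.normSq a ∈ K := by
      rw [Complex.normSq_apply]
      have : a.im * a.im = (s * a.im) * (s * a.im) * (s * s)⁻¹ := by field_simp
      rw [this]
      exact K.add_mem (K.mul_mem ha1 ha1) (K.mul_mem (K.mul_mem ha2 ha2) (K.inv_mem hs2))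
    constructor
    · rw [Complex.inv_re]
      exact K.div_mem ha1 hn
    · rw [Complex.inv_im]
      have : s * (-a.im / Complex.normSq a) = -(s * a.im) / Complex.normSq a := by ring
      rw [this]
      exact K.div_mem (K.neg_mem ha2) hn

theorem mem_EE {K : Subfield ℝ} {s : ℝ} {hs : s ≠ 0} {hs2 : s * s ∈ K} {z : ℂ} :
    z ∈ EE K s hs hs2 ↔ z.re ∈ K ∧ s * z.im ∈ K := Iff.rfl

end Pool.Agent.Few65U
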