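import Pool.Agent.Few65U.Struct
import Mathlib

set_option autoImplicit false

namespace Pool.Agent.Few65U

open Finset Pool.Agent.Few65

variable {m : ℕ}

theorem struct (α β : (Fin m → ℚ) →ₗ[ℚ] ℝ) (hinj : ∀ x, α x = 0 → β x = 0 → x = 0)
    (hA : ∃ x, x ≠ 0 ∧ β x = 0) (hA' : ∃ x, x ≠ 0 ∧ α x = 0)
    (hdim : Module.finrank ℚ (LinearMap.ker α) + Module.finrank ℚ (LinearMap.ker β) = m) :
    (∃ L1 L2 L3 L4 : (Fin m → ℚ) →ₗ[ℚ] ℝ, (∃ x, L1 x * L2 x - L3 x * L4 x ≠ 0) ∧
      ∀ z : Fin m → ℚ, z ≠ 0 →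
        Module.finrank ℚ (PAR α β z) + Module.finrank ℚ (PERP α β z) = m →
        L1 z * L2 z - L3 z * L4 z = 0) ∨
    (∃ (l : ℝ) (E : Subfield ℂ), l ≠ 0 ∧ (∀ z ∈ E, (starRingEnd ℂ) z ∈ E) ∧
      (∃ z ∈ E, z.im ≠ 0) ∧
      ∀ z : ℂ, z ∈ E ↔ ∃ x : Fin m → ℚ, (l : ℂ) * z = (α x : ℂ) + (β x : ℂ) * Complex.I) := by
  by_cases h0 : ∃ z0 : Fin m → ℚ, α z0 ≠ 0 ∧ β z0 ≠ 0 ∧
      Module.finrank ℚ (PAR α β z0) + Module.finrank ℚ (PERP α β z0) = m
  · obtain ⟨z0, ha0, hb0, hz0⟩ := h0
    obtain ⟨m1, m2⟩ := crit_maps α β hinj hdim z0 ha0 hb0 hz0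
    set s := β z0 / α z0 with hs
    have hs0 : s ≠ 0 := div_ne_zero hb0 ha0
    have : FiniteDimensional ℚ (LinearMap.range α) := inferInstance
    set K := multK (LinearMap.range α) with hK
    have hs2 : s * s ∈ K := by
      rw [hK, mem_multK]
      rintro x ⟨v, rfl⟩
      obtain ⟨b, hb⟩ := m1 v
      obtain ⟨c, hc⟩ := m2 b
      refine ⟨c, ?_⟩
      rw [hc, hb]; ring
    -- `x ∈ X → s⁻¹ x ∈ Y`
    have hinvY : ∀ x ∈ LinearMap.range α, ∃ b, β b = s⁻¹ * x := by
      intro x hx
      have h1 : (s * s)⁻¹ * x ∈ LinearMap.range α := (K.inv_mem hs2) x hx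
      obtain ⟨v, hv⟩ := h1
      obtain ⟨b, hb⟩ := m1 v
      refine ⟨b, ?_⟩
      rw [hb, hv]
      field_simp
    by_cases h1 : ∃ x1 ∈ LinearMap.range α, ∃ x2 ∈ LinearMap.range α, x1 ≠ 0 ∧
        x2 ∉ Submodule.span K {x1}
    · left
      obtain ⟨x1, hx1, x2, hx2, hx10, hx2n⟩ := h1
      obtain ⟨f, hf2, hf1⟩ := Submodule.exists_dual_map_eq_bot_of_notMem hx2n inferInstance
      have hfx1 : f x1 = 0 := by
        have : f x1 ∈ Submodule.map f (Submodule.span K {x1}) :=
          Submodule.mem_map_of_mem (Submodule.mem_span_singleton_self x1)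
        rw [hf1, Submodule.mem_bot] at this
        exact this
      let g : ℝ →ₗ[ℚ] ℝ := (AddMonoidHom.mk' (fun r => ((f r : K) : ℝ)) (by
        intro a b
        simp)).toRatLinearMap
      have hg : ∀ r, g r = ((f r : K) : ℝ) := fun r => rfl
      have hgK : ∀ t ∈ K, ∀ r, g (t * r) = t * g r := by
        intro t ht r
        have h2 : t * r = (⟨t, ht⟩ : K) • r := rfl
        rw [hg, hg, h2, map_smul, smul_eq_mul]
        rfl
      let S : ℝ →ₗ[ℚ] ℝ := LinearMap.mulLeft ℚ s
      have hS : ∀ r, S r = s * r := fun r => rfl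
      refine ⟨g.comp (S.comp β), α, S.comp β, g.comp α, ?_, ?_⟩
      · obtain ⟨u, hu⟩ := hx1
        obtain ⟨w, hw⟩ := hinvY x2 hx2
        obtain ⟨x, e1, e2⟩ := both α β hinj hdim u w
        refine ⟨x, ?_⟩
        simp only [LinearMap.comp_apply, hS]
        rw [e1, e2, hu, hw, hg x1, hfx1]
        have h3 : s * (s⁻¹ * x2) = x2 := by field_simp
        rw [h3]
        simp only [ZeroMemClass.coe_zero, mul_zero, sub_zero]
        refine mul_ne_zero ?_ hx10
        rw [hg]
        intro h4
        apply hf2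
        exact Subtype.ext h4
      · intro z hz hzc
        simp only [LinearMap.comp_apply, hS]
        by_cases ha : α z = 0
        · rw [ha, map_zero]; ring
        by_cases hb : β z = 0
        · rw [hb, mul_zero, map_zero]; ring
        obtain ⟨n1, n2⟩ := crit_maps α β hinj hdim z ha hb hzc
        have ht : s * (β z / α z) ∈ K := by
          rw [hK, mem_multK]
          rintro x ⟨v, rfl⟩
          obtain ⟨b, hb'⟩ := n1 v
          obtain ⟨c, hc⟩ := m2 b
          refine ⟨c, ?_⟩
          rw [hc, hb']; ring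
        have h5 : s * β z = (s * (β z / α z)) * α z := by field_simp
        rw [h5, hgK _ ht]
        ring
    · right
      push Not at h1
      have hx1 : α z0 ∈ LinearMap.range α := ⟨z0, rfl⟩
      refine ⟨α z0, EE K s hs0 hs2, ha0, ?_, ?_, ?_⟩
      · intro z hz
        rw [mem_EE] at hz ⊢
        rw [Complex.conj_re, Complex.conj_im, mul_neg]
        exact ⟨hz.1, K.neg_mem hz.2⟩
      · refine ⟨⟨0, s⟩, ?_, hs0⟩
        rw [mem_EE]
        exact ⟨K.zero_mem, hs2⟩
      · intro z
        rw [mem_EE]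
        constructor
        · rintro ⟨hr, hi⟩
          have g1 : z.re * α z0 ∈ LinearMap.range α := hr _ hx1
          have g2 : (s * z.im) * α z0 ∈ LinearMap.range α := hi _ hx1
          obtain ⟨u, hu⟩ := g1
          obtain ⟨w, hw⟩ := hinvY _ g2
          obtain ⟨x, e1, e2⟩ := both α β hinj hdim u w
          refine ⟨x, ?_⟩
          apply Complex.ext
          · simp [e1, hu]; ring
          · have : s⁻¹ * (s * z.im * α z0) = z.im * α z0 := by field_simp
            simp [e2, hw, this]; ring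
        · rintro ⟨x, hx⟩
          have hre := congrArg Complex.re hx
          have him := congrArg Complex.im hx
          simp at hre him
          have k1 := h1 (α z0) hx1 (α x) ⟨x, rfl⟩ ha0
          obtain ⟨c, hc⟩ := m2 x
          have k2 := h1 (α z0) hx1 (α c) ⟨c, rfl⟩ ha0
          rw [Submodule.mem_span_singleton] at k1 k2
          obtain ⟨t1, ht1⟩ := k1
          obtain ⟨t2, ht2⟩ := k2
          have ht1' : (t1 : ℝ) * α z0 = α x := ht1
          have ht2' : (t2 : ℝ) * α z0 = α c := ht2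
          constructor
          · have : z.re = t1 := by
              apply mul_left_cancel₀ ha0
              rw [hre, ← ht1']; ring
            rw [this]; exact t1.2
          · have : s * z.im = t2 := by
              apply mul_left_cancel₀ ha0
              have : α z0 * (s * z.im) = s * (α z0 * z.im) := by ring
              rw [this, him, ← hc, ← ht2']; ring
            rw [this]; exact t2.2
  · left
    push Not at h0
    refine ⟨α, β, 0, 0, ?_, ?_⟩
    · obtain ⟨x, hx0, hbx⟩ := hA
      obtain ⟨y, hy0, hay⟩ := hA'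
      refine ⟨x + y, ?_⟩
      rw [map_add, map_add, hbx, hay]
      simp only [LinearMap.zero_apply, mul_zero, sub_zero, add_zero, zero_add]
      refine mul_ne_zero ?_ ?_
      · intro h; exact hx0 (hinj x h hbx)
      · intro h; exact hy0 (hinj y hay h)
    · intro z hz hzc
      simp only [LinearMap.zero_apply, mul_zero, sub_zero]
      by_cases ha : α z = 0
      · rw [ha, zero_mul]
      by_cases hb : β z = 0
      · rw [hb, mul_zero]
      exact absurd hzc (h0 z ha hb)

end Pool.Agent.Few65U
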